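import Pool.Agent.Y502.CG.Main2

/-!
# Rational and transcendental complete growth series of `F_m × F_n × H`

`CG S` is the complete growth series, `RatSub` the ring of the rational series, `IsAlg` means
algebraic (definitions of the starting library, `Pool.Agent.H322R3.CGBase`).

The starting result is about the group `F₆ × F₂`. Here the six generators of `F₆` are replaced by
words of a prefix code in two letters; the letters of the code are sent to elements of a
representation of `F₂` of dimension `42`, which degenerates to the transition matrices of an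
automaton. As the elements of the kernel of a retraction also degenerate to `0`, the argument works
for all groups that retract onto `F₂ × F₂`.
-/

set_option autoImplicit false

namespace Pool.Agent.Results.MP_c4ee57_al.ProductsOfFreeGroups

open PoolH322CG

/-- (1) All direct products `F_m × F_n` of free groups with `m, n ≥ 2` have a finite generating set
with rational and one with transcendental complete growth series. (2) So do all groups
`F_m × F_n × H` where `H` is any group that has a rational complete growth series for some finite
generating set. (3) Every finitely generated group which retracts onto `F₂ × F₂` has a finite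
generating set with transcendental complete growth series. -/
theorem result :
    (∀ m n : ℕ, 2 ≤ m → 2 ≤ n → ∃ S₁ S₂ : Finset (FreeGroup (Fin m) × FreeGroup (Fin n)),
      Subgroup.closure (S₁ : Set (FreeGroup (Fin m) × FreeGroup (Fin n))) = ⊤ ∧
      Subgroup.closure (S₂ : Set (FreeGroup (Fin m) × FreeGroup (Fin n))) = ⊤ ∧
      CG S₁ ∈ RatSub (MonoidAlgebra ℤ (FreeGroup (Fin m) × FreeGroup (Fin n))) ∧
      ¬ IsAlg (CG S₂)) ∧
    (∀ m n : ℕ, 2 ≤ m → 2 ≤ n → ∀ (H : Type) [Group H] (T : Finset H),
      Subgroup.closure (T : Set H) = ⊤ → CG T ∈ RatSub (MonoidAlgebra ℤ H) →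
      ∃ S₁ S₂ : Finset (FreeGroup (Fin m) × FreeGroup (Fin n) × H),
        Subgroup.closure (S₁ : Set (FreeGroup (Fin m) × FreeGroup (Fin n) × H)) = ⊤ ∧
        Subgroup.closure (S₂ : Set (FreeGroup (Fin m) × FreeGroup (Fin n) × H)) = ⊤ ∧
        CG S₁ ∈ RatSub (MonoidAlgebra ℤ (FreeGroup (Fin m) × FreeGroup (Fin n) × H)) ∧
        ¬ IsAlg (CG S₂)) ∧
    (∀ (G : Type) [Group G], Group.FG G →
      ∀ (i : FreeGroup (Fin 2) × FreeGroup (Fin 2) →* G)
        (r : G →* FreeGroup (Fin 2) × FreeGroup (Fin 2)), (∀ x, r (i x) = x) →
      ∃ S : Finset G, Subgroup.closure (S : Set G) = ⊤ ∧ ¬ IsAlg (CG S)) :=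
  ⟨fun _ _ hm hn => Pool.Agent.Y502.CG.exists_two' hm hn,
    fun _ _ hm hn _ _ T hT hr => Pool.Agent.Y502.CG.exists_two hm hn T hT hr,
    fun _ _ hG i r h => Pool.Agent.Y502.CG.exists_of_retract hG i r h⟩

end Pool.Agent.Results.MP_c4ee57_al.ProductsOfFreeGroups
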